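import Mathlib

/-!
Definitions for self-inverting and Hessian nilpotent formal power series in `n` variables over `ℂ`.
-/

namespace Pool.Agent.MP_e6e7b2_al

open MvPowerSeries

/-- The gradient `∇P = (∂P/∂z_1, …, ∂P/∂z_n)`. -/
noncomputable def grad {n : ℕ} (P : MvPowerSeries (Fin n) ℂ) :
    Fin n → MvPowerSeries (Fin n) ℂ :=
  fun i => pderiv ℂ i P

/-- The Hessian matrix `(∂²P/∂z_i∂z_j)`, a matrix over `ℂ[[z]]`. -/
noncomputable def hes {n : ℕ} (P : MvPowerSeries (Fin n) ℂ) :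
    Matrix (Fin n) (Fin n) (MvPowerSeries (Fin n) ℂ) :=
  Matrix.of fun i j => pderiv ℂ i (pderiv ℂ j P)

/-- `P` is Hessian nilpotent. -/
def IsHN {n : ℕ} (P : MvPowerSeries (Fin n) ℂ) : Prop :=
  IsNilpotent (hes P)

/-- `F` and `G` are formal maps fixing the origin, and `F ∘ G = G ∘ F = z`. -/
def IsFormalInverse {n : ℕ} (F G : Fin n → MvPowerSeries (Fin n) ℂ) : Prop :=
  (∀ i, constantCoeff (F i) = 0) ∧ (∀ i, constantCoeff (G i) = 0) ∧
    (∀ i, subst G (F i) = X i) ∧ (∀ i, subst F (G i) = X i)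

/-- `Q` is the inversion pair of `P`: `Q(0) = 0` and `z + ∇Q` is the formal inverse of
`z - ∇P`. -/
def IsInversionPair {n : ℕ} (P Q : MvPowerSeries (Fin n) ℂ) : Prop :=
  constantCoeff Q = 0 ∧ IsFormalInverse (fun i => X i - grad P i) (fun i => X i + grad Q i)

/-- `P` has order at least two, `(Hes P)(0)` is nilpotent, and the inversion pair of `P` is `P`. -/
def IsSelfInverting {n : ℕ} (P : MvPowerSeries (Fin n) ℂ) : Prop :=
  2 ≤ P.order ∧ IsNilpotent ((hes P).map constantCoeff) ∧ IsInversionPair P P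

end Pool.Agent.MP_e6e7b2_al
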